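import Pool.Agent.H90.DE.Tail

/-!
# The number of nonzero coefficients of signed digit series with a relation
-/

set_option autoImplicit false
set_option linter.unusedSectionVars false

open Finset

namespace Pool.Agent.H90.DE

open PowerSeries (coeff)
open Pool.Agent.H90.PR

section
variable {b : ℕ} {ι : Type} [Fintype ι] [DecidableEq ι]

/-- the error -/
noncomputable def er (b : ℕ) (F : ι → PowerSeries ℤ) (z : ι → ℝ) (p : Finset ι → ℤ) (m : ℕ) : ℝ :=
  ∑ I ∈ univ.erase (univ : Finset ι), (p I : ℝ) * tz b (∏ i ∈ I, F i) (∏ i ∈ I, z i) m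

/-- the integer of the relation is not `0` -/
lemma rel_ne [Nonempty ι] (F : ι → PowerSeries ℤ) (z : ι → ℝ) (q : ℕ) (p : Finset ι → ℤ)
    (hrel : (q : ℝ) * ∏ i, z i =
      ∑ I ∈ univ.erase (univ : Finset ι), (p I : ℝ) * ∏ i ∈ I, z i)
    (ℓ : ℕ) (hℓ : ℓ.Prime) (h1 : ℓ ∣ q) (h2 : ∀ I : Finset ι, I ≠ univ → I ≠ ∅ → (ℓ : ℤ) ∣ p I)
    (h3 : ¬ (ℓ : ℤ) ∣ p ∅) (h4 : ¬ ℓ ∣ b) (m : ℕ) :
    1 ≤ |q * tz b (∏ i, F i) (∏ i, z i) m - er b F z p m| := by
  set Z : ℤ := ∑ I ∈ univ.erase (univ : Finset ι), p I * coeff m ((∏ i ∈ I, F i) * EZ b) -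
    q * coeff m ((∏ i, F i) * EZ b) with hZ
  have e : q * tz b (∏ i, F i) (∏ i, z i) m - er b F z p m = (Z : ℝ) := by
    rw [hZ]
    unfold er tz
    push_cast
    simp only [mul_sub, sum_sub_distrib]
    have h5 : ∀ I : Finset ι, (p I : ℝ) * ((∏ i ∈ I, z i) * (b : ℝ) ^ m) =
        (p I : ℝ) * (∏ i ∈ I, z i) * (b : ℝ) ^ m := fun I => by ring
    simp only [h5]
    rw [← sum_mul, ← hrel]
    ring
  rw [e]
  have hne : Z ≠ 0 := by
    intro h0
    have hmem : (∅ : Finset ι) ∈ univ.erase (univ : Finset ι) := by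
      rw [mem_erase]
      exact ⟨(univ_nonempty (α := ι)).ne_empty.symm, mem_univ _⟩
    rw [hZ, ← add_sum_erase _ _ hmem, sub_eq_zero] at h0
    have h5 : (ℓ : ℤ) ∣ ∑ I ∈ (univ.erase (univ : Finset ι)).erase ∅,
        p I * coeff m ((∏ i ∈ I, F i) * EZ b) := by
      refine dvd_sum fun I hI => ?_
      rw [mem_erase, mem_erase] at hI
      exact (h2 I hI.2.1 hI.1).mul_right _
    have h6 : (ℓ : ℤ) ∣ (q : ℤ) * coeff m ((∏ i, F i) * EZ b) :=
      (Int.natCast_dvd_natCast.2 h1).mul_right _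
    have h7 : (ℓ : ℤ) ∣ p ∅ * coeff m ((∏ i ∈ (∅ : Finset ι), F i) * EZ b) := by
      rw [← h0] at h6
      exact (dvd_add_left h5).1 h6
    rw [prod_empty, one_mul, EZ, PowerSeries.coeff_mk] at h7
    have hp : Prime (ℓ : ℤ) := Nat.prime_iff_prime_int.1 hℓ
    rcases hp.dvd_or_dvd h7 with h8 | h8
    · exact h3 h8
    · exact h4 (Int.natCast_dvd_natCast.1 (hp.dvd_of_dvd_pow h8))
  have h5 : 1 ≤ |Z| := Int.one_le_abs hne
  exact_mod_cast h5

lemma tz_univ_le [Nonempty ι] (F : ι → PowerSeries ℤ) (z : ι → ℝ) (B : ι → ℕ)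
    (hB : ∀ i k, |coeff k (F i)| ≤ B i) (hB1 : ∀ i, 1 ≤ B i) {C : ℝ} (hC1 : 1 ≤ C)
    (hz : ∀ i, |z i| ≤ C) (ht : ∀ i n, |tz b (F i) (z i) n| ≤ C) (j : ι) (n : ℕ) :
    |tz b (∏ i, F i) (∏ i, z i) n| ≤
      2 * C * ((2 * C) ^ (Fintype.card ι) *
        ∏ i ∈ univ.erase j, ((B i : ℝ) * (SN (ind (F i)) n + 1))) := by
  rw [← mul_prod_erase univ F (mem_univ j), ← mul_prod_erase univ z (mem_univ j), tz_mul]
  have h1 : |∑ p ∈ antidiagonal n, ((coeff p.1 (∏ i ∈ univ.erase j, F i) : ℤ) : ℝ) *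
      tz b (F j) (z j) p.2| ≤
      C * ∏ i ∈ univ.erase j, ((B i : ℝ) * SN (ind (F i)) n) := by
    refine (abs_sum_le_sum_abs _ _).trans ?_
    have h2 : ∀ p ∈ antidiagonal n,
        |((coeff p.1 (∏ i ∈ univ.erase j, F i) : ℤ) : ℝ) * tz b (F j) (z j) p.2| ≤
          C * |((coeff p.1 (∏ i ∈ univ.erase j, F i) : ℤ) : ℝ)| := by
      intro p _
      rw [abs_mul, mul_comm]
      exact mul_le_mul_of_nonneg_right (ht j p.2) (abs_nonneg _)
    refine (sum_le_sum h2).trans ?_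
    rw [← mul_sum]
    refine mul_le_mul_of_nonneg_left ?_ (by linarith)
    refine le_trans (le_of_eq ?_) (sum_coeff_le F B hB (univ.erase j) n)
    rw [Finset.Nat.sum_antidiagonal_eq_sum_range_succ_mk]
  have h3 := tz_prod_le (b := b) F z B hB hB1 hC1 hz ht (univ.erase j) n
  have h4 : ∏ i ∈ univ.erase j, ((B i : ℝ) * SN (ind (F i)) n) ≤
      ∏ i ∈ univ.erase j, ((B i : ℝ) * (SN (ind (F i)) n + 1)) := by
    refine prod_le_prod (fun i _ => by positivity) fun i _ => ?_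
    exact mul_le_mul_of_nonneg_left (by linarith) (Nat.cast_nonneg _)
  have h5 : (0 : ℝ) ≤ ∏ i ∈ univ.erase j, ((B i : ℝ) * (SN (ind (F i)) n + 1)) :=
    prod_nonneg fun i _ => by positivity
  have h6 : (2 * C) ^ (univ.erase j).card ≤ (2 * C) ^ (Fintype.card ι) :=
    pow_le_pow_right₀ (by linarith) (card_le_univ _)
  have h7 : (1 : ℝ) ≤ (2 * C) ^ (Fintype.card ι) := one_le_pow₀ (by linarith)
  set X := ∏ i ∈ univ.erase j, ((B i : ℝ) * (SN (ind (F i)) n + 1))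
  set P := (2 * C) ^ (Fintype.card ι)
  have h8 : X ≤ P * X := by nlinarith
  have h9 : |z j * tz b (∏ i ∈ univ.erase j, F i) (∏ i ∈ univ.erase j, z i) n| ≤ C * (P * X) := by
    rw [abs_mul]
    refine mul_le_mul (hz j) (h3.trans ?_) (abs_nonneg _) (by linarith)
    exact mul_le_mul_of_nonneg_right h6 h5
  have h10 : C * ∏ i ∈ univ.erase j, ((B i : ℝ) * SN (ind (F i)) n) ≤ C * (P * X) :=
    mul_le_mul_of_nonneg_left (h4.trans h8) (by linarith)
  refine (abs_add_le _ _).trans ?_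
  linarith

/-- products of fewer counts are small -/
lemma small_prod (B u : ι → ℝ) (hB1 : ∀ i, 1 ≤ B i) {M n : ℝ} (hM : 1 ≤ M)
    (hu : ∀ i, M ≤ u i) (hprod : ∏ i, u i ≤ n) (I : Finset ι) (hI : I ≠ univ) :
    ∏ i ∈ I, (B i * (u i + 1)) ≤ 2 ^ (Fintype.card ι) * (∏ i, B i) * n / M := by
  obtain ⟨j, hj⟩ : ∃ j, j ∉ I := by
    by_contra hcon
    push Not at hcon
    exact hI (eq_univ_iff_forall.2 hcon)
  have hu1 : ∀ i, 1 ≤ u i := fun i => hM.trans (hu i)
  have h1 : ∏ i ∈ I, (B i * (u i + 1)) ≤ ∏ i ∈ I, (2 * B i * u i) := by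
    refine prod_le_prod (fun i _ => ?_) fun i _ => ?_
    · have := hB1 i
      have := hu1 i
      positivity
    · have := hB1 i
      have := hu1 i
      nlinarith
  have h1' : ∀ i, 1 ≤ 2 * B i * u i := fun i => by
    have h2 := hB1 i
    have h3 := hu1 i
    nlinarith
  have h2 : ∏ i ∈ I, (2 * B i * u i) ≤ ∏ i ∈ univ.erase j, (2 * B i * u i) := by
    have hsub : I ⊆ univ.erase j := by
      intro i hi
      rw [mem_erase]
      exact ⟨fun h => hj (h ▸ hi), mem_univ _⟩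
    rw [← prod_sdiff hsub]
    have h8 : (1 : ℝ) ≤ ∏ i ∈ univ.erase j \ I, (2 * B i * u i) := by
      have h9 : ∏ _i ∈ univ.erase j \ I, (1 : ℝ) ≤ ∏ i ∈ univ.erase j \ I, (2 * B i * u i) :=
        prod_le_prod (fun _ _ => zero_le_one) fun i _ => h1' i
      rwa [prod_const_one] at h9
    have h9 : 0 ≤ ∏ i ∈ I, (2 * B i * u i) := prod_nonneg fun i _ => by linarith [h1' i]
    nlinarith
  have h3 : (2 * B j * u j) * ∏ i ∈ univ.erase j, (2 * B i * u i) =
      2 ^ (Fintype.card ι) * (∏ i, B i) * ∏ i, u i := by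
    rw [mul_prod_erase univ (fun i => 2 * B i * u i) (mem_univ j), prod_mul_distrib,
      prod_mul_distrib, prod_const, card_univ]
  have h4 : M ≤ 2 * B j * u j := by
    have h5 := hB1 j
    have h6 := hu j
    nlinarith [hu1 j]
  have h5 : 0 ≤ ∏ i ∈ univ.erase j, (2 * B i * u i) :=
    prod_nonneg fun i _ => by linarith [h1' i]
  have h6 : 0 ≤ 2 ^ (Fintype.card ι) * (∏ i, B i) := by
    have : 0 ≤ ∏ i, B i := prod_nonneg fun i _ => by linarith [hB1 i]
    positivity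
  refine (h1.trans h2).trans ?_
  rw [le_div_iff₀ (by linarith)]
  calc (∏ i ∈ univ.erase j, (2 * B i * u i)) * M ≤
      (∏ i ∈ univ.erase j, (2 * B i * u i)) * (2 * B j * u j) := mul_le_mul_of_nonneg_left h4 h5
    _ = 2 ^ (Fintype.card ι) * (∏ i, B i) * ∏ i, u i := by rw [mul_comm, h3]
    _ ≤ _ := mul_le_mul_of_nonneg_left hprod h6

/-- the number of the nonzero coefficients -/
theorem core (hb : 2 ≤ b) [Nonempty ι] (F : ι → PowerSeries ℤ) (z : ι → ℝ) (B : ι → ℕ)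
    (hB : ∀ i k, |coeff k (F i)| ≤ B i) (hB1 : ∀ i, b - 1 ≤ B i) {C : ℝ} (hC1 : 1 ≤ C)
    (hz : ∀ i, |z i| ≤ C) (ht : ∀ i n, |tz b (F i) (z i) n| ≤ C)
    (hinf : ∀ i, ∀ M : ℝ, ∃ n0 : ℕ, ∀ n : ℕ, n0 ≤ n → M ≤ SN (ind (F i)) n)
    (q : ℕ) (hq : 1 ≤ q) (p : Finset ι → ℤ)
    (hrel : (q : ℝ) * ∏ i, z i =
      ∑ I ∈ univ.erase (univ : Finset ι), (p I : ℝ) * ∏ i ∈ I, z i)
    (ℓ : ℕ) (hℓ : ℓ.Prime) (h1 : ℓ ∣ q) (h2 : ∀ I : Finset ι, I ≠ univ → I ≠ ∅ → (ℓ : ℤ) ∣ p I)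
    (h3 : ¬ (ℓ : ℤ) ∣ p ∅) (h4 : ¬ ℓ ∣ b) (L : ℕ) (hL : q * ∏ i, B i < (b - 1) * b ^ L)
    {ε : ℝ} (hε : 0 < ε) :
    ∃ n0 : ℕ, ∀ n : ℕ, n0 ≤ n → (1 - ε) * n ≤ L * ∏ i, (SN (ind (F i)) n : ℝ) := by
  classical
  have hb2 : (2 : ℝ) ≤ b := by exact_mod_cast hb
  have hBp : ∀ i, 1 ≤ B i := fun i => by have := hB1 i; omega
  set PB : ℕ := ∏ i, B i with hPB
  have hPB1 : b - 1 ≤ PB := by
    obtain ⟨j⟩ := ‹Nonempty ι›
    rw [hPB, ← mul_prod_erase univ B (mem_univ j)]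
    have h5 : 1 ≤ ∏ i ∈ univ.erase j, B i := Finset.one_le_prod' fun i _ => hBp i
    calc b - 1 = (b - 1) * 1 := (mul_one _).symm
      _ ≤ _ := Nat.mul_le_mul (hB1 j) h5
  have hL1 : 1 ≤ L := by
    rcases Nat.eq_zero_or_pos L with h | h
    · exfalso
      rw [h, pow_zero, mul_one] at hL
      have h5 : 1 * (b - 1) ≤ q * PB := Nat.mul_le_mul hq hPB1
      omega
    · exact h
  -- the parameters
  set R : ℕ := (b - 1) * b ^ L with hR
  have hbL : 2 ≤ b ^ L := by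
    calc 2 ≤ b := hb
      _ = b ^ 1 := (pow_one b).symm
      _ ≤ b ^ L := Nat.pow_le_pow_right (by omega) hL1
  have hR2 : 2 ≤ R := by
    calc 2 = 1 * 2 := rfl
      _ ≤ _ := Nat.mul_le_mul (by omega) hbL
  have hR2' : (2 : ℝ) ≤ R := by exact_mod_cast hR2
  have hRr : (R : ℝ) = ((b : ℝ) - 1) * (b : ℝ) ^ L := by
    rw [hR]; push_cast [Nat.cast_sub (show 1 ≤ b by omega)]; ring
  set η : ℝ := 1 / R with hη
  have hη0 : 0 < η := by rw [hη]; positivity
  have hη2 : η ≤ 1 / 2 := one_div_le_one_div_of_le (by norm_num) hR2'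
  set θ : ℝ := 1 - η with hθ
  have hθ0 : 0 < θ := by linarith
  set w : ℝ := ((q * PB : ℕ) : ℝ) with hw
  have hw1 : (b : ℝ) - 1 ≤ w := by
    have h5 : 1 * (b - 1) ≤ q * PB := Nat.mul_le_mul hq hPB1
    have h6 : ((1 * (b - 1) : ℕ) : ℝ) ≤ w := by rw [hw]; exact_mod_cast h5
    rw [one_mul, Nat.cast_sub (by omega), Nat.cast_one] at h6
    exact h6
  have hw0 : 0 < w := by linarith
  have hθw : θ ≤ w / ((b : ℝ) - 1) := by
    rw [le_div_iff₀ (by linarith)]
    nlinarith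
  have hwL : w ≤ ((b : ℝ) - 1) * ((b : ℝ) ^ L * θ) := by
    have h5 : q * PB + 1 ≤ R := hL
    have h6 : w + 1 ≤ R := by rw [hw]; exact_mod_cast h5
    have h7 : ((b : ℝ) - 1) * ((b : ℝ) ^ L * θ) = R * θ := by rw [hRr]; ring
    have h8 : (R : ℝ) * θ = R - 1 := by
      rw [hθ, hη]
      field_simp
    rw [h7, h8]
    linarith
  set D := Fintype.card ι with hD
  set cp : ℝ := ∑ I ∈ univ.erase (univ : Finset ι), |(p I : ℝ)| with hcp
  have hcp0 : 0 ≤ cp := sum_nonneg fun _ _ => abs_nonneg _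
  set E : ℝ := (2 * C) ^ D with hE
  have hE1 : 1 ≤ E := one_le_pow₀ (by linarith)
  have hPBr : (PB : ℝ) = ∏ i, (B i : ℝ) := by rw [hPB]; push_cast; rfl
  have hPBr1 : (1 : ℝ) ≤ PB := by
    have : 1 ≤ PB := by omega
    exact_mod_cast this
  set K : ℝ := (2 * C * E + cp * (2 * E) / η) * (2 ^ D * PB) with hK
  have hK0 : 0 ≤ K := by positivity
  set M : ℝ := max 1 (2 * K / ε) with hM
  have hM1 : 1 ≤ M := le_max_left _ _
  have hKM : K / M ≤ ε / 2 := by
    rw [div_le_iff₀ (by linarith)]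
    have h5 : 2 * K / ε ≤ M := le_max_right _ _
    rw [div_le_iff₀ hε] at h5
    linarith
  choose N0 hN0 using fun i => hinf i M
  obtain ⟨n1, hn1⟩ := exists_nat_ge (2 * L / ε)
  refine ⟨max (univ.sup N0) n1, fun n hn => ?_⟩
  have hnN : ∀ i, M ≤ SN (ind (F i)) n := fun i =>
    hN0 i n ((le_sup (mem_univ i)).trans ((le_max_left _ _).trans hn))
  have hn1' : (2 * L / ε : ℝ) ≤ n := hn1.trans (by exact_mod_cast (le_max_right _ _).trans hn)
  rw [div_le_iff₀ hε] at hn1'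
  have hn0 : (0 : ℝ) ≤ n := Nat.cast_nonneg _
  have hLr : (1 : ℝ) ≤ L := by exact_mod_cast hL1
  set u : ι → ℝ := fun i => (SN (ind (F i)) n : ℝ) with hu
  rcases le_or_gt (∏ i, u i) n with hsm | hbig
  swap
  · have h5 : (n : ℝ) ≤ L * ∏ i, u i := by nlinarith
    have h6 : 0 ≤ ε * n := by positivity
    linarith
  have hX : ∀ I : Finset ι, I ≠ univ → ∏ i ∈ I, ((B i : ℝ) * (SN (ind (F i)) n + 1)) ≤
      2 ^ D * PB * n / M := by
    intro I hI
    have h5 := small_prod (fun i => (B i : ℝ)) u (fun i => by exact_mod_cast hBp i) hM1 hnN hsm I hI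
    rw [← hPBr] at h5
    exact h5
  set X : ℝ := 2 ^ D * PB * n / M with hXd
  have hX0 : 0 ≤ X := by positivity
  have hKX : (2 * C * E + cp * (2 * E) / η) * X = K / M * n := by
    rw [hK, hXd]
    ring
  -- the potential
  have hpot := pot_sum hb2 hθ0 hw0 hθw hL1 hwL
    (T := fun m => q * |tz b (∏ i, F i) (∏ i, z i) m|)
    (k := fun m => coeff m (∏ i, ind (F i))) (by
      intro m
      have h5 : |((coeff (m + 1) (∏ i, F i) : ℤ) : ℝ)| ≤
          ((PB * coeff (m + 1) (∏ i, ind (F i)) : ℕ) : ℝ) := by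
        have h := coeff_prod_le F B hB univ (m + 1)
        exact_mod_cast h
      have h6 : (b : ℝ) * |tz b (∏ i, F i) (∏ i, z i) m| ≤
          |tz b (∏ i, F i) (∏ i, z i) (m + 1)| + |((coeff (m + 1) (∏ i, F i) : ℤ) : ℝ)| := by
        rw [← abs_of_nonneg (show (0 : ℝ) ≤ b by linarith), ← abs_mul]
        have h7 : b * tz b (∏ i, F i) (∏ i, z i) m = tz b (∏ i, F i) (∏ i, z i) (m + 1) +
            ((coeff (m + 1) (∏ i, F i) : ℤ) : ℝ) := by
          rw [tz_succ]; ring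
        rw [h7]
        exact abs_add_le _ _
      rw [hw]
      push_cast at h5 ⊢
      have hq0 : (0 : ℝ) ≤ q := Nat.cast_nonneg _
      have h7 := mul_le_mul_of_nonneg_left (h6.trans (add_le_add le_rfl h5)) hq0
      linarith) n
  have hpotR : (n : ℝ) ≤ L * ∑ m ∈ range n, ((coeff (m + 1) (∏ i, ind (F i)) : ℕ) : ℝ) +
      (HH (b : ℝ) θ w L (q * |tz b (∏ i, F i) (∏ i, z i) n|) : ℝ) +
      (((range n).filter (fun m => q * |tz b (∏ i, F i) (∏ i, z i) m| < θ)).card : ℝ) := by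
    exact_mod_cast hpot
  -- the sums
  have hs1 : ∑ m ∈ range n, ((coeff (m + 1) (∏ i, ind (F i)) : ℕ) : ℝ) ≤ ∏ i, u i := by
    have h5 : ∑ m ∈ range n, coeff (m + 1) (∏ i, ind (F i)) ≤ SN (∏ i, ind (F i)) n := by
      unfold SN
      rw [sum_range_succ' (fun k => coeff k (∏ i, ind (F i)))]
      exact Nat.le_add_right _ _
    have h6 := h5.trans (SN_prod (fun i => ind (F i)) univ n)
    have h7 : ((∑ m ∈ range n, coeff (m + 1) (∏ i, ind (F i)) : ℕ) : ℝ) ≤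
        ((∏ i, SN (ind (F i)) n : ℕ) : ℝ) := by exact_mod_cast h6
    push_cast at h7
    exact h7
  -- the last term
  obtain ⟨j⟩ := ‹Nonempty ι›
  have : Nonempty ι := ⟨j⟩
  have hjne : univ.erase j ≠ (univ : Finset ι) := fun h => by
    have := mem_univ j
    rw [← h] at this
    exact (notMem_erase j univ) this
  have hT := tz_univ_le (b := b) F z B hB hBp hC1 hz ht j n
  rw [← hD, ← hE] at hT
  have hT2 : |tz b (∏ i, F i) (∏ i, z i) n| ≤ 2 * C * E * X := by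
    refine hT.trans ?_
    rw [mul_assoc (2 * C)]
    refine mul_le_mul_of_nonneg_left ?_ (by linarith)
    exact mul_le_mul_of_nonneg_left (hX _ hjne) (by linarith)
  have hHH : (HH (b : ℝ) θ w L (q * |tz b (∏ i, F i) (∏ i, z i) n|) : ℝ) ≤ L + 2 * C * E * X := by
    have hq0 : (0 : ℝ) ≤ q := Nat.cast_nonneg _
    have h5 := HH_le (θ := θ) (L := L) hb2 hw0
      (show 0 ≤ q * |tz b (∏ i, F i) (∏ i, z i) n| by positivity)
    refine h5.trans (add_le_add le_rfl ?_)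
    rw [div_le_iff₀ hw0]
    have h6 : (q : ℝ) ≤ w := by
      rw [hw]; push_cast
      nlinarith
    calc (q : ℝ) * |tz b (∏ i, F i) (∏ i, z i) n| ≤ w * (2 * C * E * X) :=
          mul_le_mul h6 hT2 (abs_nonneg _) hw0.le
      _ = _ := by ring
  -- the exceptional places
  have hbad : (((range n).filter
      (fun m => q * |tz b (∏ i, F i) (∏ i, z i) m| < θ)).card : ℝ) ≤
      cp * (2 * E) / η * X := by
    have h5 : ∀ m ∈ (range n).filter (fun m => q * |tz b (∏ i, F i) (∏ i, z i) m| < θ),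
        η ≤ |er b F z p m| := by
      intro m hm
      have h6 := (mem_filter.1 hm).2
      have h7 := rel_ne (b := b) F z q p hrel ℓ hℓ h1 h2 h3 h4 m
      have h8 : |q * tz b (∏ i, F i) (∏ i, z i) m - er b F z p m| ≤
          q * |tz b (∏ i, F i) (∏ i, z i) m| + |er b F z p m| := by
        refine (abs_sub _ _).trans (le_of_eq ?_)
        rw [abs_mul, abs_of_nonneg (Nat.cast_nonneg q)]
      linarith
    have h6 : (((range n).filter
        (fun m => q * |tz b (∏ i, F i) (∏ i, z i) m| < θ)).card : ℝ) * η ≤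
        ∑ m ∈ range n, |er b F z p m| := by
      rw [← nsmul_eq_mul, ← sum_const]
      refine (sum_le_sum h5).trans ?_
      exact sum_le_sum_of_subset_of_nonneg (filter_subset _ _) fun _ _ _ => abs_nonneg _
    have h7 : ∑ m ∈ range n, |er b F z p m| ≤ cp * (2 * (E * X)) := by
      have h8 : ∀ m, |er b F z p m| ≤ ∑ I ∈ univ.erase (univ : Finset ι),
          |(p I : ℝ)| * |tz b (∏ i ∈ I, F i) (∏ i ∈ I, z i) m| := fun m => by
        unfold er
        refine (abs_sum_le_sum_abs _ _).trans (le_of_eq (sum_congr rfl fun I _ => abs_mul _ _))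
      refine (sum_le_sum fun m _ => h8 m).trans ?_
      rw [sum_comm, hcp, sum_mul]
      refine sum_le_sum fun I hI => ?_
      rw [← mul_sum]
      refine mul_le_mul_of_nonneg_left ?_ (abs_nonneg _)
      refine (tz_prod_sum hb F z B hB hBp hC1 hz ht I n).trans ?_
      refine mul_le_mul_of_nonneg_left ?_ (by norm_num)
      refine mul_le_mul ?_ (hX I (ne_of_mem_erase hI)) (prod_nonneg fun i _ => by positivity)
        (by linarith)
      exact pow_le_pow_right₀ (by linarith) (card_le_univ _)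
    rw [div_mul_eq_mul_div, le_div_iff₀ hη0]
    linarith
  -- the end
  have h5 : (L : ℝ) * ∑ m ∈ range n, ((coeff (m + 1) (∏ i, ind (F i)) : ℕ) : ℝ) ≤
      L * ∏ i, u i := mul_le_mul_of_nonneg_left hs1 (by linarith)
  have h6 : K / M * n ≤ ε / 2 * n := mul_le_mul_of_nonneg_right hKM hn0
  have h7 : 2 * C * E * X + cp * (2 * E) / η * X = K / M * n := by rw [← hKX]; ring
  have h8 : (L : ℝ) ≤ ε / 2 * n := by linarith
  have h9 : (n : ℝ) ≤ L * ∏ i, u i + (L + 2 * C * E * X) + cp * (2 * E) / η * X := by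
    linarith
  linarith

end

end Pool.Agent.H90.DE
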