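import Pool.Agent.H90.DE.Core

/-!
# Defects of linear recurrences in the digits
-/

set_option autoImplicit false
set_option linter.unusedSectionVars false

open Finset Polynomial

namespace Pool.Agent.H90.DE

/-- the `k`-th digit after the point of `x` in base `b` -/
noncomputable def dg (b : ℕ) (x : ℝ) (k : ℕ) : ℤ := ⌊x * (b : ℝ) ^ k⌋ % (b : ℤ)

/-- the value of the linear recurrence with the coefficients of `P` at the place `k` -/
noncomputable def dP (b : ℕ) (P : ℤ[X]) (x : ℝ) (k : ℕ) : ℤ :=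
  P.sum fun j c => c * dg b x (k + j)

/-- the tail -/
noncomputable def tau (b : ℕ) (P : ℤ[X]) (x : ℝ) (n : ℕ) : ℝ :=
  P.sum fun j c => (c : ℝ) * Int.fract (x * (b : ℝ) ^ (n + j))

/-- the series of the values of the recurrence -/
noncomputable def FP (b : ℕ) (P : ℤ[X]) (x : ℝ) : PowerSeries ℤ :=
  PowerSeries.mk fun k => if k = 0 then 0 else dP b P x k

section
variable {b : ℕ}

lemma dg_range (hb : 2 ≤ b) (x : ℝ) (k : ℕ) : 0 ≤ dg b x k ∧ dg b x k ≤ b - 1 := by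
  unfold dg
  have h1 := Int.emod_nonneg ⌊x * (b : ℝ) ^ k⌋ (show (b : ℤ) ≠ 0 by omega)
  have h2 := Int.emod_lt_of_pos ⌊x * (b : ℝ) ^ k⌋ (show (0 : ℤ) < b by omega)
  omega

lemma fract_step (hb : 2 ≤ b) (x : ℝ) (m : ℕ) :
    Int.fract (x * (b : ℝ) ^ (m + 1)) = b * Int.fract (x * (b : ℝ) ^ m) - dg b x (m + 1) := by
  set y := x * (b : ℝ) ^ m with hy
  have h1 : x * (b : ℝ) ^ (m + 1) = y * b := by rw [hy, pow_succ]; ring
  have hb0 : (0 : ℝ) < b := by exact_mod_cast (by omega : 0 < b)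
  have h2 : y * b = ((b * ⌊y⌋ : ℤ) : ℝ) + b * Int.fract y := by
    push_cast
    have := Int.floor_add_fract y
    calc y * b = (⌊y⌋ + Int.fract y) * b := by rw [this]
      _ = _ := by ring
  have h3 : ⌊y * b⌋ = b * ⌊y⌋ + ⌊(b : ℝ) * Int.fract y⌋ := by
    rw [h2, Int.floor_intCast_add]
  have h4 : 0 ≤ ⌊(b : ℝ) * Int.fract y⌋ := Int.floor_nonneg.2 (mul_nonneg hb0.le (Int.fract_nonneg _))
  have h5 : ⌊(b : ℝ) * Int.fract y⌋ < b := by
    rw [Int.floor_lt]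
    have := Int.fract_lt_one y
    push_cast
    nlinarith
  have h6 : dg b x (m + 1) = ⌊(b : ℝ) * Int.fract y⌋ := by
    unfold dg
    rw [h1, h3, Int.mul_add_emod_self_left, Int.emod_eq_of_lt h4 h5]
  rw [h6, h1, Int.fract, h3, h2]
  push_cast
  ring

lemma tau_succ (hb : 2 ≤ b) (P : ℤ[X]) (x : ℝ) (n : ℕ) :
    tau b P x (n + 1) = b * tau b P x n - dP b P x (n + 1) := by
  unfold tau dP
  rw [Polynomial.sum_def, Polynomial.sum_def, Polynomial.sum_def]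
  push_cast
  rw [mul_sum, ← sum_sub_distrib]
  refine sum_congr rfl fun j _ => ?_
  rw [show n + 1 + j = n + j + 1 by ring, fract_step hb]
  ring

lemma tz_eq (hb : 2 ≤ b) (P : ℤ[X]) (x : ℝ) (n : ℕ) :
    tz b (FP b P x) (tau b P x 0) n = tau b P x n := by
  induction n with
  | zero =>
    rw [tz_zero, FP, PowerSeries.coeff_mk, if_pos rfl]
    simp
  | succ n ih =>
    rw [tz_succ, ih, tau_succ hb, FP, PowerSeries.coeff_mk, if_neg (Nat.succ_ne_zero n)]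

lemma tau_le (P : ℤ[X]) (x : ℝ) (n : ℕ) :
    |tau b P x n| ≤ P.sum fun _ c => |(c : ℝ)| := by
  unfold tau
  rw [Polynomial.sum_def, Polynomial.sum_def]
  refine (abs_sum_le_sum_abs _ _).trans (sum_le_sum fun j _ => ?_)
  rw [abs_mul]
  have h1 : |Int.fract (x * (b : ℝ) ^ (n + j))| ≤ 1 := by
    rw [abs_of_nonneg (Int.fract_nonneg _)]
    exact (Int.fract_lt_one _).le
  have := abs_nonneg ((P.coeff j : ℤ) : ℝ)
  nlinarith

lemma dP_le (hb : 2 ≤ b) (P : ℤ[X]) (x : ℝ) (B : ℕ)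
    (h1 : (b - 1) * P.sum (fun _ c => c.toNat) ≤ B)
    (h2 : (b - 1) * P.sum (fun _ c => (-c).toNat) ≤ B) (k : ℕ) : |dP b P x k| ≤ B := by
  have hb' : ((b - 1 : ℕ) : ℤ) = b - 1 := by push_cast [Nat.cast_sub (show 1 ≤ b by omega)]; ring
  rw [Polynomial.sum_def] at h1 h2
  unfold dP
  rw [Polynomial.sum_def, abs_le]
  constructor
  · have h3 : (((b - 1) * ∑ j ∈ P.support, (-P.coeff j).toNat : ℕ) : ℤ) ≤ B := by exact_mod_cast h2
    push_cast at h3
    rw [hb', mul_sum] at h3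
    have h4 : -(∑ j ∈ P.support, ((b : ℤ) - 1) * ((-P.coeff j).toNat : ℤ)) ≤
        ∑ j ∈ P.support, P.coeff j * dg b x (k + j) := by
      rw [← sum_neg_distrib]
      refine sum_le_sum fun j _ => ?_
      obtain ⟨h5, h6⟩ := dg_range hb x (k + j)
      have h7 : -P.coeff j ≤ ((-P.coeff j).toNat : ℤ) := Int.self_le_toNat _
      have h8 : (0 : ℤ) ≤ ((-P.coeff j).toNat : ℤ) := Int.natCast_nonneg _
      nlinarith
    simp only [Int.ofNat_toNat] at h3 h4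
    linarith
  · have h3 : (((b - 1) * ∑ j ∈ P.support, (P.coeff j).toNat : ℕ) : ℤ) ≤ B := by exact_mod_cast h1
    push_cast at h3
    rw [hb', mul_sum] at h3
    have h4 : ∑ j ∈ P.support, P.coeff j * dg b x (k + j) ≤
        ∑ j ∈ P.support, ((b : ℤ) - 1) * ((P.coeff j).toNat : ℤ) := by
      refine sum_le_sum fun j _ => ?_
      obtain ⟨h5, h6⟩ := dg_range hb x (k + j)
      have h7 : P.coeff j ≤ ((P.coeff j).toNat : ℤ) := Int.self_le_toNat _
      have h8 : (0 : ℤ) ≤ ((P.coeff j).toNat : ℤ) := Int.natCast_nonneg _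
      nlinarith
    simp only [Int.ofNat_toNat] at h3 h4
    linarith

lemma B_ge (P : ℤ[X]) (hP : P ≠ 0) (B : ℕ)
    (h1 : (b - 1) * P.sum (fun _ c => c.toNat) ≤ B)
    (h2 : (b - 1) * P.sum (fun _ c => (-c).toNat) ≤ B) : b - 1 ≤ B := by
  obtain ⟨j, hj⟩ : P.support.Nonempty := Polynomial.support_nonempty.2 hP
  have hc := Polynomial.mem_support_iff.1 hj
  rw [Polynomial.sum_def] at h1 h2
  rcases lt_or_gt_of_ne hc with h | h
  · have h3 : 1 ≤ (-P.coeff j).toNat := by omega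
    have h4 : (-P.coeff j).toNat ≤ ∑ j ∈ P.support, (-P.coeff j).toNat :=
      single_le_sum (f := fun j => (-P.coeff j).toNat) (fun _ _ => Nat.zero_le _) hj
    calc b - 1 = (b - 1) * 1 := (mul_one _).symm
      _ ≤ (b - 1) * ∑ j ∈ P.support, (-P.coeff j).toNat := Nat.mul_le_mul_left _ (h3.trans h4)
      _ ≤ B := h2
  · have h3 : 1 ≤ (P.coeff j).toNat := by omega
    have h4 : (P.coeff j).toNat ≤ ∑ j ∈ P.support, (P.coeff j).toNat :=
      single_le_sum (f := fun j => (P.coeff j).toNat) (fun _ _ => Nat.zero_le _) hj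
    calc b - 1 = (b - 1) * 1 := (mul_one _).symm
      _ ≤ (b - 1) * ∑ j ∈ P.support, (P.coeff j).toNat := Nat.mul_le_mul_left _ (h3.trans h4)
      _ ≤ B := h1

/-- `tau` differs from a multiple of `x` by an integer -/
lemma tau_int (P : ℤ[X]) (x : ℝ) (n : ℕ) :
    ∃ m : ℤ, tau b P x n = ((P.eval (b : ℤ) : ℤ) : ℝ) * (b : ℝ) ^ n * x - m := by
  refine ⟨P.sum fun j c => c * ⌊x * (b : ℝ) ^ (n + j)⌋, ?_⟩
  unfold tau
  rw [Polynomial.eval_eq_sum, Polynomial.sum_def, Polynomial.sum_def, Polynomial.sum_def]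
  push_cast
  rw [sum_mul, sum_mul, ← sum_sub_distrib]
  refine sum_congr rfl fun j _ => ?_
  rw [Int.fract, pow_add]
  ring

/-- there are infinitely many defects -/
lemma defect_inf (hb : 2 ≤ b) (P : ℤ[X]) (hP : P.eval (b : ℤ) ≠ 0) (x : ℝ) (hx : Irrational x)
    (K : ℕ) : ∃ k, K < k ∧ dP b P x k ≠ 0 := by
  by_contra hcon
  push Not at hcon
  have hb2 : (2 : ℝ) ≤ b := by exact_mod_cast hb
  have h1 : ∀ h, tau b P x (K + h) = (b : ℝ) ^ h * tau b P x K := by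
    intro h
    induction h with
    | zero => simp
    | succ h ih =>
      rw [← Nat.add_assoc, tau_succ hb, ih, hcon _ (by omega), pow_succ]
      push_cast
      ring
  have h2 : tau b P x K = 0 := by
    by_contra hne
    have h3 : 0 < |tau b P x K| := abs_pos.2 hne
    obtain ⟨h, hh⟩ := pow_unbounded_of_one_lt ((P.sum fun _ c => |(c : ℝ)|) / |tau b P x K|)
      (show (1 : ℝ) < b by linarith)
    rw [div_lt_iff₀ h3] at hh
    have h4 := tau_le (b := b) P x (K + h)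
    rw [h1, abs_mul, abs_of_nonneg (by positivity : (0 : ℝ) ≤ (b : ℝ) ^ h)] at h4
    linarith
  obtain ⟨m, hm⟩ := tau_int (b := b) P x K
  rw [h2] at hm
  have hb0 : (b : ℝ) ^ K ≠ 0 := by positivity
  have hc : ((P.eval (b : ℤ) : ℤ) : ℝ) ≠ 0 := by exact_mod_cast hP
  have h3 : x = m / (((P.eval (b : ℤ) : ℤ) : ℝ) * (b : ℝ) ^ K) := by
    rw [eq_div_iff (mul_ne_zero hc hb0)]
    linarith
  refine hx ⟨(m : ℚ) / ((P.eval (b : ℤ) : ℤ) * (b : ℚ) ^ K), ?_⟩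
  rw [h3]
  push_cast
  ring

/-- the number of defects -/
lemma SN_FP (P : ℤ[X]) (x : ℝ) (n : ℕ) :
    SN (ind (FP b P x)) n = ((Icc 1 n).filter fun k => dP b P x k ≠ 0).card := by
  have h0 : PowerSeries.coeff 0 (ind (FP b P x)) = 0 := by
    unfold ind FP
    rw [PowerSeries.coeff_mk, PowerSeries.coeff_mk, if_pos rfl, if_pos rfl]
  have hs : ∀ k, PowerSeries.coeff (k + 1) (ind (FP b P x)) =
      if dP b P x (k + 1) ≠ 0 then 1 else 0 := by
    intro k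
    unfold ind FP
    rw [PowerSeries.coeff_mk, PowerSeries.coeff_mk, if_neg (Nat.succ_ne_zero k)]
    by_cases h : dP b P x (k + 1) = 0
    · rw [if_pos h, if_neg (not_not.2 h)]
    · rw [if_neg h, if_pos h]
  induction n with
  | zero =>
    unfold SN
    rw [sum_range_one, h0]
    simp
  | succ n ih =>
    have h1 : SN (ind (FP b P x)) (n + 1) =
        SN (ind (FP b P x)) n + PowerSeries.coeff (n + 1) (ind (FP b P x)) := by
      unfold SN
      rw [sum_range_succ]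
    rw [h1, ih, hs, card_filter, card_filter, sum_Icc_succ_top (by omega)]

/-- the counts tend to infinity -/
lemma SN_inf (hb : 2 ≤ b) (P : ℤ[X]) (hP : P.eval (b : ℤ) ≠ 0) (x : ℝ) (hx : Irrational x)
    (M : ℝ) : ∃ n0 : ℕ, ∀ n : ℕ, n0 ≤ n → M ≤ SN (ind (FP b P x)) n := by
  have h1 : ∀ K : ℕ, ∃ n0 : ℕ, ∀ n : ℕ, n0 ≤ n → K ≤ SN (ind (FP b P x)) n := by
    intro K
    induction K with
    | zero => exact ⟨0, fun _ _ => Nat.zero_le _⟩
    | succ K ih =>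
      obtain ⟨n0, h0⟩ := ih
      obtain ⟨k, hk, hk2⟩ := defect_inf hb P hP x hx n0
      refine ⟨k, fun n hn => ?_⟩
      have h2 := h0 (k - 1) (by omega)
      rw [SN_FP] at h2 ⊢
      refine Nat.succ_le_of_lt (lt_of_le_of_lt h2 (card_lt_card ?_))
      rw [ssubset_iff_of_subset]
      · refine ⟨k, ?_, ?_⟩
        · rw [mem_filter, mem_Icc]
          exact ⟨⟨by omega, hn⟩, hk2⟩
        · rw [mem_filter, mem_Icc]
          omega
      · intro i hi
        rw [mem_filter, mem_Icc] at hi ⊢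
        exact ⟨⟨hi.1.1, by omega⟩, hi.2⟩
  obtain ⟨n0, h0⟩ := h1 ⌈M⌉₊
  refine ⟨n0, fun n hn => (Nat.le_ceil M).trans ?_⟩
  exact_mod_cast h0 n hn

end

section
variable {ι : Type} [Fintype ι] [DecidableEq ι]

/-- the relation for the numbers `z_i = c_i x_i - m_i` -/
lemma rel_change (x z : ι → ℝ) (c m : ι → ℤ) (hz : ∀ i, z i = c i * x i - m i) (q : ℕ)
    (p : Finset ι → ℤ) (hrel : (q : ℝ) * ∏ i, x i =
      ∑ I ∈ univ.erase (univ : Finset ι), (p I : ℝ) * ∏ i ∈ I, x i)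
    (hne : (∅ : Finset ι) ≠ univ)
    (ℓ : ℕ) (hℓ : ℓ.Prime) (h1 : ℓ ∣ q) (h2 : ∀ I : Finset ι, I ≠ univ → I ≠ ∅ → (ℓ : ℤ) ∣ p I)
    (h3 : ¬ (ℓ : ℤ) ∣ p ∅) (h4 : ∀ i, ¬ (ℓ : ℤ) ∣ c i) :
    ∃ p' : Finset ι → ℤ, (q : ℝ) * ∏ i, z i =
      ∑ I ∈ univ.erase (univ : Finset ι), (p' I : ℝ) * ∏ i ∈ I, z i ∧
      (∀ I : Finset ι, I ≠ univ → I ≠ ∅ → (ℓ : ℤ) ∣ p' I) ∧ ¬ (ℓ : ℤ) ∣ p' ∅ := by
  set E := univ.erase (univ : Finset ι) with hE
  refine ⟨fun J => ∑ I ∈ E.filter (fun I => J ⊆ I), p I * (∏ i ∈ univ \ I, c i) * ∏ i ∈ I \ J, m i -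
    q * ∏ i ∈ univ \ J, m i, ?_, ?_, ?_⟩
  · have hcx : ∀ i, (c i : ℝ) * x i = z i + m i := fun i => by rw [hz i]; ring
    have h5 : (q : ℝ) * ∏ i, (z i + m i) =
        ∑ I ∈ E, (p I : ℝ) * (∏ i ∈ univ \ I, (c i : ℝ)) * ∏ i ∈ I, (z i + m i) := by
      have h6 : ∏ i, (z i + m i) = (∏ i, (c i : ℝ)) * ∏ i, x i := by
        rw [← prod_mul_distrib]
        exact prod_congr rfl fun i _ => (hcx i).symm
      rw [h6]
      calc (q : ℝ) * ((∏ i, (c i : ℝ)) * ∏ i, x i) = (∏ i, (c i : ℝ)) * (q * ∏ i, x i) := by ring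
        _ = _ := by
          rw [hrel, mul_sum]
          refine sum_congr rfl fun I _ => ?_
          have h7 : ∏ i ∈ I, (z i + m i) = (∏ i ∈ I, (c i : ℝ)) * ∏ i ∈ I, x i := by
            rw [← prod_mul_distrib]
            exact prod_congr rfl fun i _ => (hcx i).symm
          rw [h7, ← prod_sdiff (subset_univ I)]
          ring
    have h6 : ∏ i, (z i + (m i : ℝ)) = ∏ i, z i +
        ∑ J ∈ E, (∏ i ∈ J, z i) * ∏ i ∈ univ \ J, (m i : ℝ) := by
      rw [prod_add, powerset_univ, hE, ← add_sum_erase _ _ (mem_univ (univ : Finset ι))]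
      simp
    have h7 : ∑ I ∈ E, (p I : ℝ) * (∏ i ∈ univ \ I, (c i : ℝ)) * ∏ i ∈ I, (z i + m i) =
        ∑ J ∈ E, ∑ I ∈ E.filter (fun I => J ⊆ I), (p I : ℝ) * (∏ i ∈ univ \ I, (c i : ℝ)) *
          ((∏ i ∈ J, z i) * ∏ i ∈ I \ J, (m i : ℝ)) := by
      have h8 : ∀ I ∈ E, (p I : ℝ) * (∏ i ∈ univ \ I, (c i : ℝ)) * ∏ i ∈ I, (z i + m i) =
          ∑ J ∈ I.powerset, (p I : ℝ) * (∏ i ∈ univ \ I, (c i : ℝ)) *
          ((∏ i ∈ J, z i) * ∏ i ∈ I \ J, (m i : ℝ)) := by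
        intro I _
        rw [prod_add, mul_sum]
      rw [sum_congr rfl h8]
      refine sum_comm' ?_
      intro I J
      rw [mem_powerset, mem_filter, hE, mem_erase, mem_erase]
      constructor
      · rintro ⟨⟨h9, -⟩, h10⟩
        refine ⟨⟨⟨h9, mem_univ _⟩, h10⟩, ?_, mem_univ _⟩
        rintro rfl
        exact h9 (univ_subset_iff.1 h10)
      · rintro ⟨⟨h9, h10⟩, -⟩
        exact ⟨h9, h10⟩
    rw [h6, h7, mul_add] at h5
    have h8 : (q : ℝ) * ∏ i, z i = ∑ J ∈ E, ∑ I ∈ E.filter (fun I => J ⊆ I),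
        (p I : ℝ) * (∏ i ∈ univ \ I, (c i : ℝ)) * ((∏ i ∈ J, z i) * ∏ i ∈ I \ J, (m i : ℝ)) -
        q * ∑ J ∈ E, (∏ i ∈ J, z i) * ∏ i ∈ univ \ J, (m i : ℝ) := by linarith
    rw [h8, mul_sum, ← sum_sub_distrib]
    refine sum_congr rfl fun J _ => ?_
    push_cast
    rw [sub_mul, sum_mul]
    congr 1
    · refine sum_congr rfl fun I _ => ?_
      ring
    · ring
  · intro J hJ hJ0
    refine dvd_sub (dvd_sum fun I hI => ?_) ((Int.natCast_dvd_natCast.2 h1).mul_right _)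
    rw [mem_filter, hE, mem_erase] at hI
    rw [mul_assoc]
    refine (h2 I hI.1.1 ?_).mul_right _
    rintro rfl
    exact hJ0 (subset_empty.1 hI.2)
  · intro hcon
    have hmem : (∅ : Finset ι) ∈ E.filter (fun I => (∅ : Finset ι) ⊆ I) := by
      rw [mem_filter, hE, mem_erase]
      exact ⟨⟨hne, mem_univ _⟩, empty_subset _⟩
    simp only at hcon
    rw [← add_sum_erase _ _ hmem] at hcon
    have h5 : (ℓ : ℤ) ∣ ∑ I ∈ (E.filter (fun I => (∅ : Finset ι) ⊆ I)).erase ∅,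
        p I * (∏ i ∈ univ \ I, c i) * ∏ i ∈ I \ ∅, m i := by
      refine dvd_sum fun I hI => ?_
      rw [mem_erase, mem_filter, hE, mem_erase] at hI
      rw [mul_assoc]
      exact (h2 I hI.2.1.1 hI.1).mul_right _
    have h6 : (ℓ : ℤ) ∣ (q : ℤ) * ∏ i ∈ univ \ (∅ : Finset ι), m i :=
      (Int.natCast_dvd_natCast.2 h1).mul_right _
    have h7 := (dvd_sub_comm.1 (dvd_sub_comm.1 hcon))
    have h8 : (ℓ : ℤ) ∣ p ∅ * (∏ i ∈ univ \ (∅ : Finset ι), c i) * ∏ i ∈ (∅ : Finset ι) \ ∅, m i := by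
      have h9 := dvd_add h7 h6
      rw [sub_add_cancel] at h9
      exact (dvd_add_left h5).1 h9
    rw [sdiff_self, bot_eq_empty, prod_empty, mul_one] at h8
    have hp : Prime (ℓ : ℤ) := Nat.prime_iff_prime_int.1 hℓ
    rcases hp.dvd_or_dvd h8 with h9 | h9
    · exact h3 h9
    · obtain ⟨i, -, hi⟩ := (Prime.dvd_finsetProd_iff hp _).1 h9
      exact h4 i hi

end

/-- the theorem on the defects -/
theorem main_def {b : ℕ} (hb : 2 ≤ b) {n : ℕ} (x : Fin n → ℝ) (hx : ∀ i, Irrational (x i))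
    (q : ℕ) (hq : 1 ≤ q) (p : Finset (Fin n) → ℤ)
    (hrel : (q : ℝ) * ∏ i, x i =
      ∑ I ∈ univ.erase (univ : Finset (Fin n)), (p I : ℝ) * ∏ i ∈ I, x i)
    (ℓ : ℕ) (hℓ : ℓ.Prime) (h1 : ℓ ∣ q)
    (h2 : ∀ I : Finset (Fin n), I ≠ univ → I ≠ ∅ → (ℓ : ℤ) ∣ p I)
    (h3 : ¬ (ℓ : ℤ) ∣ p ∅) (h4 : ¬ ℓ ∣ b) (P : Fin n → ℤ[X])
    (hP : ∀ i, ¬ (ℓ : ℤ) ∣ (P i).eval (b : ℤ)) (B : Fin n → ℕ)
    (hB : ∀ i, (b - 1) * (P i).sum (fun _ c => c.toNat) ≤ B i ∧
      (b - 1) * (P i).sum (fun _ c => (-c).toNat) ≤ B i)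
    (L : ℕ) (hL : q * ∏ i, B i < (b - 1) * b ^ L) {ε : ℝ} (hε : 0 < ε) :
    ∃ n0 : ℕ, ∀ N : ℕ, n0 ≤ N →
      (1 - ε) * N ≤ L * ∏ i, (((Icc 1 N).filter fun k => dP b (P i) (x i) k ≠ 0).card : ℝ) := by
  have hn : 1 ≤ n := by
    rcases Nat.eq_zero_or_pos n with h | h
    · exfalso
      subst h
      have h5 : univ.erase (univ : Finset (Fin 0)) = ∅ := by decide
      rw [h5, sum_empty] at hrel
      simp only [univ_eq_empty, prod_empty, mul_one] at hrel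
      have h6 : q = 0 := by exact_mod_cast hrel
      omega
    · exact h
  have : Nonempty (Fin n) := ⟨⟨0, hn⟩⟩
  have hP0 : ∀ i, (P i).eval (b : ℤ) ≠ 0 := fun i h => hP i (by rw [h]; exact dvd_zero _)
  have hPne : ∀ i, P i ≠ 0 := fun i h => hP0 i (by rw [h]; simp)
  choose m hm using fun i => tau_int (b := b) (P i) (x i) 0
  obtain ⟨p', hrel', h2', h3'⟩ := rel_change x (fun i => tau b (P i) (x i) 0)
    (fun i => (P i).eval (b : ℤ)) m (fun i => by rw [hm i, pow_zero, mul_one]) q p hrel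
    (univ_nonempty (α := Fin n)).ne_empty.symm ℓ hℓ h1 h2 h3 hP
  set C : ℝ := 1 + ∑ i, (P i).sum (fun _ c => |(c : ℝ)|) with hC
  have hS : ∀ i, 0 ≤ (P i).sum (fun _ c => |(c : ℝ)|) := fun i => by
    rw [Polynomial.sum_def]
    exact sum_nonneg fun _ _ => abs_nonneg _
  have hC1 : 1 ≤ C := by
    have := sum_nonneg fun i (_ : i ∈ (univ : Finset (Fin n))) => hS i
    linarith
  have hCi : ∀ i k, |tau b (P i) (x i) k| ≤ C := fun i k => by
    refine (tau_le (P i) (x i) k).trans ?_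
    have := single_le_sum (f := fun i => (P i).sum (fun _ c => |(c : ℝ)|)) (fun i _ => hS i)
      (mem_univ i)
    linarith
  obtain ⟨n0, h0⟩ := core hb (fun i => FP b (P i) (x i)) (fun i => tau b (P i) (x i) 0) B
    (fun i k => by
      unfold FP
      rw [PowerSeries.coeff_mk]
      split_ifs with h
      · simp
      · exact dP_le hb _ _ _ (hB i).1 (hB i).2 k)
    (fun i => B_ge (P i) (hPne i) (B i) (hB i).1 (hB i).2) hC1 (fun i => hCi i 0)
    (fun i k => by rw [tz_eq hb]; exact hCi i k)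
    (fun i M => SN_inf hb (P i) (hP0 i) (x i) (hx i) M) q hq p' hrel' ℓ hℓ h1 h2' h3' h4 L hL hε
  refine ⟨n0, fun N hN => ?_⟩
  have h5 := h0 N hN
  simp only [SN_FP] at h5
  exact h5

end Pool.Agent.H90.DE
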