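import Pool.Agent.H90.PR.Pot

/-!
# Tails of products of signed digit series
-/

set_option autoImplicit false
set_option linter.unusedSectionVars false

open Finset

namespace Pool.Agent.H90.DE

open PowerSeries (coeff)

/-- the series of the powers of `b` -/
noncomputable def EZ (b : ℕ) : PowerSeries ℤ := PowerSeries.mk fun n => (b : ℤ) ^ n

/-- the tail of the expansion `z = ∑ F_k b ^ (-k)` after the place `n`, times `b ^ n` -/
noncomputable def tz (b : ℕ) (F : PowerSeries ℤ) (z : ℝ) (n : ℕ) : ℝ :=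
  z * (b : ℝ) ^ n - ((coeff n (F * EZ b) : ℤ) : ℝ)

section
variable {b : ℕ}

lemma coeff_EZ_zero (F : PowerSeries ℤ) : coeff 0 (F * EZ b) = coeff 0 F := by
  simp [EZ]

lemma coeff_EZ_succ (F : PowerSeries ℤ) (n : ℕ) :
    coeff (n + 1) (F * EZ b) = b * coeff n (F * EZ b) + coeff (n + 1) F := by
  rw [PowerSeries.coeff_mul, PowerSeries.coeff_mul, Finset.Nat.sum_antidiagonal_succ', mul_sum]
  simp only [EZ, PowerSeries.coeff_mk, pow_zero, mul_one]
  rw [add_comm]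
  congr 1
  refine sum_congr rfl fun p _ => ?_
  rw [pow_succ]
  ring

lemma tz_zero (F : PowerSeries ℤ) (z : ℝ) : tz b F z 0 = z - (coeff 0 F : ℤ) := by
  unfold tz
  rw [coeff_EZ_zero, pow_zero, mul_one]

lemma tz_succ (F : PowerSeries ℤ) (z : ℝ) (n : ℕ) :
    tz b F z (n + 1) = b * tz b F z n - ((coeff (n + 1) F : ℤ) : ℝ) := by
  unfold tz
  rw [coeff_EZ_succ, pow_succ]
  push_cast
  ring

lemma tz_mul (F G : PowerSeries ℤ) (x y : ℝ) (n : ℕ) :
    tz b (F * G) (x * y) n =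
      ∑ p ∈ antidiagonal n, ((coeff p.1 G : ℤ) : ℝ) * tz b F x p.2 + x * tz b G y n := by
  unfold tz
  have h1 : F * G * EZ b = G * (F * EZ b) := by ring
  rw [h1, PowerSeries.coeff_mul (n := n) (φ := G) (ψ := F * EZ b),
    PowerSeries.coeff_mul (n := n) (φ := G) (ψ := EZ b)]
  simp only [mul_sub, sum_sub_distrib, EZ, PowerSeries.coeff_mk]
  push_cast
  rw [mul_sum]
  have h2 : ∀ p : ℕ × ℕ, ((coeff p.1 G : ℤ) : ℝ) * (x * (b : ℝ) ^ p.2) =
      x * (((coeff p.1 G : ℤ) : ℝ) * (b : ℝ) ^ p.2) := fun p => by ring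
  simp only [h2]
  ring

lemma tz_one (n : ℕ) : tz b 1 1 n = 0 := by
  unfold tz
  rw [one_mul, one_mul, EZ, PowerSeries.coeff_mk]
  push_cast
  ring

/-- the sum of the tails -/
lemma tz_sum (hb : 2 ≤ b) (F : PowerSeries ℤ) (z : ℝ) (n : ℕ) :
    ∑ m ∈ range n, |tz b F z m| ≤ |tz b F z n| + ∑ m ∈ range n, |((coeff (m + 1) F : ℤ) : ℝ)| := by
  have hbR : (2 : ℝ) ≤ b := by exact_mod_cast hb
  induction n with
  | zero => simp
  | succ n ih =>
    rw [sum_range_succ, sum_range_succ]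
    have h1 : b * tz b F z n = tz b F z (n + 1) + ((coeff (n + 1) F : ℤ) : ℝ) := by
      rw [tz_succ]; ring
    have h2 : (b : ℝ) * |tz b F z n| ≤ |tz b F z (n + 1)| + |((coeff (n + 1) F : ℤ) : ℝ)| := by
      rw [← abs_of_nonneg (show (0 : ℝ) ≤ b by linarith), ← abs_mul, h1]
      exact abs_add_le _ _
    have h3 : 2 * |tz b F z n| ≤ (b : ℝ) * |tz b F z n| :=
      mul_le_mul_of_nonneg_right hbR (abs_nonneg _)
    linarith

/-- the indicator of the nonzero coefficients -/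
noncomputable def ind (F : PowerSeries ℤ) : PowerSeries ℕ :=
  PowerSeries.mk fun k => if coeff k F = 0 then 0 else 1

/-- the sum of the coefficients up to `n` -/
noncomputable def SN (F : PowerSeries ℕ) (n : ℕ) : ℕ := ∑ k ∈ range (n + 1), coeff k F

lemma SN_mul (F G : PowerSeries ℕ) (n : ℕ) : SN (F * G) n ≤ SN F n * SN G n := by
  classical
  unfold SN
  rw [sum_mul_sum, ← sum_product']
  simp only [PowerSeries.coeff_mul]
  have h1 : ∑ k ∈ range (n + 1), ∑ p ∈ antidiagonal k, coeff p.1 F * coeff p.2 G =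
      ∑ p ∈ (range (n + 1)).biUnion (fun k => antidiagonal k), coeff p.1 F * coeff p.2 G := by
    rw [sum_biUnion]
    intro k _ k' _ hkk'
    rw [Function.onFun, disjoint_left]
    intro p hp hp'
    rw [Finset.HasAntidiagonal.mem_antidiagonal] at hp hp'
    exact hkk' (hp.symm.trans hp')
  rw [h1]
  refine sum_le_sum_of_subset fun p hp => ?_
  obtain ⟨k, hk, hp⟩ := mem_biUnion.1 hp
  have h2 := Finset.HasAntidiagonal.mem_antidiagonal.1 hp
  have h3 := mem_range.1 hk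
  rw [mem_product, mem_range, mem_range]
  constructor <;> omega

variable {ι : Type} [DecidableEq ι]

lemma SN_prod (F : ι → PowerSeries ℕ) (I : Finset ι) (n : ℕ) :
    SN (∏ i ∈ I, F i) n ≤ ∏ i ∈ I, SN (F i) n := by
  induction I using Finset.induction_on with
  | empty =>
    rw [prod_empty, prod_empty, SN]
    rw [sum_range_succ']
    simp [PowerSeries.coeff_one]
  | insert a I ha ih =>
    rw [prod_insert ha, prod_insert ha]
    exact (SN_mul _ _ _).trans (Nat.mul_le_mul_left _ ih)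

lemma coeff_prod_le (F : ι → PowerSeries ℤ) (B : ι → ℕ) (hB : ∀ i k, |coeff k (F i)| ≤ B i)
    (I : Finset ι) (m : ℕ) :
    |coeff m (∏ i ∈ I, F i)| ≤ (((∏ i ∈ I, B i) * coeff m (∏ i ∈ I, ind (F i)) : ℕ) : ℤ) := by
  induction I using Finset.induction_on generalizing m with
  | empty =>
    simp only [prod_empty, PowerSeries.coeff_one]
    split_ifs <;> simp
  | insert a I ha ih =>
    rw [prod_insert ha, prod_insert ha, prod_insert ha, PowerSeries.coeff_mul,
      PowerSeries.coeff_mul, mul_sum]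
    refine (abs_sum_le_sum_abs _ _).trans ?_
    push_cast
    refine sum_le_sum fun p _ => ?_
    rw [abs_mul]
    have h1 : |coeff p.1 (F a)| ≤ (B a : ℤ) * (coeff p.1 (ind (F a)) : ℕ) := by
      unfold ind
      rw [PowerSeries.coeff_mk]
      split_ifs with h
      · rw [h]; simp
      · rw [Nat.cast_one, mul_one]; exact hB _ _
    have h2 := ih p.2
    push_cast at h2
    calc |coeff p.1 (F a)| * |coeff p.2 (∏ i ∈ I, F i)| ≤
        ((B a : ℤ) * (coeff p.1 (ind (F a)) : ℕ)) *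
          ((∏ i ∈ I, (B i : ℤ)) * (coeff p.2 (∏ i ∈ I, ind (F i)) : ℕ)) :=
          mul_le_mul h1 h2 (abs_nonneg _) (by positivity)
      _ = _ := by ring

/-- the sum of the absolute values of the coefficients of a product -/
lemma sum_coeff_le (F : ι → PowerSeries ℤ) (B : ι → ℕ) (hB : ∀ i k, |coeff k (F i)| ≤ B i)
    (I : Finset ι) (n : ℕ) :
    ∑ m ∈ range (n + 1), |((coeff m (∏ i ∈ I, F i) : ℤ) : ℝ)| ≤
      ∏ i ∈ I, ((B i : ℝ) * SN (ind (F i)) n) := by
  have h1 : ∑ m ∈ range (n + 1), |((coeff m (∏ i ∈ I, F i) : ℤ) : ℝ)| ≤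
      ∑ m ∈ range (n + 1), (((∏ i ∈ I, B i) * coeff m (∏ i ∈ I, ind (F i)) : ℕ) : ℝ) := by
    refine sum_le_sum fun m _ => ?_
    have h := coeff_prod_le F B hB I m
    exact_mod_cast h
  refine h1.trans ?_
  rw [← Nat.cast_sum, ← mul_sum]
  have h2 := SN_prod (fun i => ind (F i)) I n
  unfold SN at h2
  rw [prod_mul_distrib]
  have h3 := Nat.mul_le_mul_left (∏ i ∈ I, B i) h2
  unfold SN
  exact_mod_cast h3

/-- a bound for the tails of products -/
lemma tz_prod_le (F : ι → PowerSeries ℤ) (z : ι → ℝ) (B : ι → ℕ)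
    (hB : ∀ i k, |coeff k (F i)| ≤ B i) (hB1 : ∀ i, 1 ≤ B i) {C : ℝ} (hC1 : 1 ≤ C)
    (hz : ∀ i, |z i| ≤ C) (ht : ∀ i n, |tz b (F i) (z i) n| ≤ C) (I : Finset ι) (n : ℕ) :
    |tz b (∏ i ∈ I, F i) (∏ i ∈ I, z i) n| ≤
      (2 * C) ^ I.card * ∏ i ∈ I, ((B i : ℝ) * (SN (ind (F i)) n + 1)) := by
  induction I using Finset.induction_on with
  | empty =>
    rw [prod_empty, prod_empty, tz_one]
    simp
  | insert a I ha ih =>
    rw [prod_insert ha, prod_insert ha, prod_insert ha, card_insert_of_notMem ha, tz_mul]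
    have h1 : |∑ p ∈ antidiagonal n, ((coeff p.1 (∏ i ∈ I, F i) : ℤ) : ℝ) * tz b (F a) (z a) p.2| ≤
        C * ∏ i ∈ I, ((B i : ℝ) * SN (ind (F i)) n) := by
      refine (abs_sum_le_sum_abs _ _).trans ?_
      have h2 : ∀ p ∈ antidiagonal n,
          |((coeff p.1 (∏ i ∈ I, F i) : ℤ) : ℝ) * tz b (F a) (z a) p.2| ≤
            C * |((coeff p.1 (∏ i ∈ I, F i) : ℤ) : ℝ)| := by
        intro p _
        rw [abs_mul, mul_comm]
        exact mul_le_mul_of_nonneg_right (ht a p.2) (abs_nonneg _)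
      refine (sum_le_sum h2).trans ?_
      rw [← mul_sum]
      refine mul_le_mul_of_nonneg_left ?_ (by linarith)
      refine le_trans (le_of_eq ?_) (sum_coeff_le F B hB I n)
      rw [Finset.Nat.sum_antidiagonal_eq_sum_range_succ_mk]
    have h3 : |z a * tz b (∏ i ∈ I, F i) (∏ i ∈ I, z i) n| ≤
        C * ((2 * C) ^ I.card * ∏ i ∈ I, ((B i : ℝ) * (SN (ind (F i)) n + 1))) := by
      rw [abs_mul]
      exact mul_le_mul (hz a) ih (abs_nonneg _) (by linarith)
    refine (abs_add_le _ _).trans ((add_le_add h1 h3).trans ?_)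
    have h4 : ∏ i ∈ I, ((B i : ℝ) * SN (ind (F i)) n) ≤
        ∏ i ∈ I, ((B i : ℝ) * (SN (ind (F i)) n + 1)) := by
      refine prod_le_prod (fun i _ => by positivity) fun i _ => ?_
      exact mul_le_mul_of_nonneg_left (by linarith) (Nat.cast_nonneg _)
    have h5 : (0 : ℝ) ≤ ∏ i ∈ I, ((B i : ℝ) * (SN (ind (F i)) n + 1)) :=
      prod_nonneg fun i _ => by positivity
    have h6 : (1 : ℝ) ≤ (2 * C) ^ I.card := one_le_pow₀ (by linarith)
    have h7 : (1 : ℝ) ≤ (B a : ℝ) * (SN (ind (F a)) n + 1) := by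
      have : (1 : ℝ) ≤ B a := by exact_mod_cast hB1 a
      have h8 : (0 : ℝ) ≤ SN (ind (F a)) n := Nat.cast_nonneg _
      nlinarith
    set X := ∏ i ∈ I, ((B i : ℝ) * (SN (ind (F i)) n + 1))
    set Y := (B a : ℝ) * (SN (ind (F a)) n + 1)
    set P := (2 * C) ^ I.card
    have h8 : X ≤ P * X := by nlinarith
    have h9 : C * ∏ i ∈ I, ((B i : ℝ) * SN (ind (F i)) n) ≤ C * (P * X) :=
      mul_le_mul_of_nonneg_left (h4.trans h8) (by linarith)
    have h10 : 0 ≤ 2 * C * (P * X) := by positivity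
    calc C * ∏ i ∈ I, ((B i : ℝ) * SN (ind (F i)) n) + C * (P * X) ≤ C * (P * X) + C * (P * X) := by
          linarith
      _ = 2 * C * (P * X) * 1 := by ring
      _ ≤ 2 * C * (P * X) * Y := mul_le_mul_of_nonneg_left h7 h10
      _ = (2 * C) ^ (I.card + 1) * (Y * X) := by rw [pow_succ]; ring

/-- a bound for the sum of the tails of products -/
lemma tz_prod_sum (hb : 2 ≤ b) (F : ι → PowerSeries ℤ) (z : ι → ℝ) (B : ι → ℕ)
    (hB : ∀ i k, |coeff k (F i)| ≤ B i) (hB1 : ∀ i, 1 ≤ B i) {C : ℝ} (hC1 : 1 ≤ C)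
    (hz : ∀ i, |z i| ≤ C) (ht : ∀ i n, |tz b (F i) (z i) n| ≤ C) (I : Finset ι) (n : ℕ) :
    ∑ m ∈ range n, |tz b (∏ i ∈ I, F i) (∏ i ∈ I, z i) m| ≤
      2 * ((2 * C) ^ I.card * ∏ i ∈ I, ((B i : ℝ) * (SN (ind (F i)) n + 1))) := by
  have h1 := tz_sum hb (∏ i ∈ I, F i) (∏ i ∈ I, z i) n
  have h2 := tz_prod_le (b := b) F z B hB hB1 hC1 hz ht I n
  have h3 : ∑ m ∈ range n, |((coeff (m + 1) (∏ i ∈ I, F i) : ℤ) : ℝ)| ≤
      ∏ i ∈ I, ((B i : ℝ) * SN (ind (F i)) n) := by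
    refine le_trans ?_ (sum_coeff_le F B hB I n)
    rw [sum_range_succ']
    have := abs_nonneg ((coeff 0 (∏ i ∈ I, F i) : ℤ) : ℝ)
    linarith
  have h4 : ∏ i ∈ I, ((B i : ℝ) * SN (ind (F i)) n) ≤
      ∏ i ∈ I, ((B i : ℝ) * (SN (ind (F i)) n + 1)) := by
    refine prod_le_prod (fun i _ => by positivity) fun i _ => ?_
    exact mul_le_mul_of_nonneg_left (by linarith) (Nat.cast_nonneg _)
  have h5 : (0 : ℝ) ≤ ∏ i ∈ I, ((B i : ℝ) * (SN (ind (F i)) n + 1)) :=
    prod_nonneg fun i _ => by positivity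
  have h6 : (1 : ℝ) ≤ (2 * C) ^ I.card := one_le_pow₀ (by linarith)
  nlinarith

end

end Pool.Agent.H90.DE
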